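import Pool.Agent.H25.EI.Sub
import Pool.Agent.H25.EI.Sharp

/-!
# An absolute bound for equi-isoclinic 3-planes

Every family of `v` equi-isoclinic 3-planes in `ℝ^m` satisfies `6 v ≤ m (m - 1)`.
For `m = 3 r` this reads `v(3, 3r, ℝ) ≤ r (3 r - 1) / 2`.

`EquiIsoclinic n lam U` (from `Pool.Agent.H25.EI.Sub`): `U : Fin v → Submodule ℝ (ℝ^m)` has
`v ≥ 2` members, all of dimension `n`, `0 < lam < 1`, and for `i ≠ j` every `u ∈ U i` satisfies
`‖P_{U j} u‖² = lam ‖u‖²`.
-/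

namespace Pool.Agent.Results.MP_c2263a_gt.AbsoluteBound

open Pool.Agent.H25.EI

theorem result (m v : ℕ) (lam : ℝ) (U : Fin v → Submodule ℝ (EuclideanSpace ℝ (Fin m)))
    (h : EquiIsoclinic 3 lam U) : 6 * v ≤ m * (m - 1) := by
  obtain ⟨A, hA⟩ := exists_data h
  have hv : 1 ≤ v := le_trans (by norm_num) h.two_le
  have hm : 3 ≤ m := by
    have h1 := Submodule.finrank_le (U ⟨0, hv⟩)
    rw [h.dim, finrank_euclideanSpace_fin] at h1
    exact h1
  have h2 := main_bound hA h.lam_pos h.lam_lt hv hm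
  have h3 : m * (m - 1) = m * m - m := by
    rw [Nat.mul_sub, Nat.mul_one]
  rw [h3]
  omega

end Pool.Agent.Results.MP_c2263a_gt.AbsoluteBound
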