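import Pool.Agent.H25.EI.IcoR

/-!
# Eleven equi-isoclinic 3-planes in `ℝ^12`

`EquiIsoclinic n lam U` (from `Pool.Agent.H25.EI.Sub`): `U : Fin v → Submodule ℝ (ℝ^m)` has
`v ≥ 2` members, all of dimension `n`, `0 < lam < 1`, and for `i ≠ j` every `u ∈ U i` satisfies
`‖P_{U j} u‖² = lam ‖u‖²`.

The eleven planes are the coordinate spaces of eleven labellings of the vertices of the
icosahedron by the twelve points of the projective line over the field with 11 elements; they are
permuted by `PSL(2,11)`.
-/

namespace Pool.Agent.Results.MP_c2263a_gt.ElevenPlanes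

open Pool.Agent.H25.EI

theorem result (r : ℕ) (hr : 4 ≤ r) :
    ∃ U : Fin 11 → Submodule ℝ (EuclideanSpace ℝ (Fin (3 * r))), EquiIsoclinic 3 (1 / 5) U :=
  eleven (3 * r) (by omega)

end Pool.Agent.Results.MP_c2263a_gt.ElevenPlanes
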